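import Pool.Agent.Helper84.GPFATree

/-!
# Two-state generalized probabilistic finite automata do not suffice

There is a binary word `x` that no two-state GPFA exposes; the same holds for every word that
contains `x` as a factor.
-/

namespace Pool.Agent.Results.MP_7880bd_lc.TwoStatesNotEnough

open Matrix

/-- A `k`-state generalized probabilistic finite automaton over the alphabet `{0, 1}`, where the
letter `0` is `false` and the letter `1` is `true`: a real row vector, two real `k × k` matrices
and a real column vector, with no further constraint. -/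
structure GPFA (k : ℕ) where
  /-- The row vector. -/
  init : Fin k → ℝ
  /-- The matrix of each letter. -/
  P : Bool → Matrix (Fin k) (Fin k) ℝ
  /-- The column vector. -/
  final : Fin k → ℝ

/-- `ρ_M(w) = π P_{w_1} ⋯ P_{w_n} η`. -/
def GPFA.rho {k : ℕ} (M : GPFA k) (w : List Bool) : ℝ :=
  M.init ⬝ᵥ ((w.map M.P).prod *ᵥ M.final)

/-- `gap_M(x)`: the least value of `ρ_M(x) - ρ_M(z)` over the words `z ≠ x` of the length of `x`
(`+∞` if there are none). -/
noncomputable def GPFA.gap {k : ℕ} (M : GPFA k) (x : List Bool) : EReal :=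
  ⨅ z ∈ {z : List Bool | z.length = x.length ∧ z ≠ x}, ((M.rho x - M.rho z : ℝ) : EReal)

/-- The GPFA complexity `A_G(x)`: the least `k ≥ 1` such that some `k`-state GPFA `M` has
`gap_M(x) > 0`. -/
noncomputable def complexity (x : List Bool) : ℕ∞ :=
  ⨅ k ∈ {k : ℕ | 1 ≤ k ∧ ∃ M : GPFA k, 0 < M.gap x}, (k : ℕ∞)

theorem lt_of_gap_pos {k : ℕ} {M : GPFA k} {x z : List Bool} (h : 0 < M.gap x)
    (hl : z.length = x.length) (hne : z ≠ x) : M.rho z < M.rho x := by
  have h1 : M.gap x ≤ ((M.rho x - M.rho z : ℝ) : EReal) := iInf₂_le z ⟨hl, hne⟩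
  have h2 : (0 : EReal) < ((M.rho x - M.rho z : ℝ) : EReal) := lt_of_lt_of_le h h1
  have h3 : (0 : ℝ) < M.rho x - M.rho z := by exact_mod_cast h2
  linarith

theorem rho_two (M : GPFA 2) (w : List Bool) :
    M.rho w = M.init ⬝ᵥ (Helper84.GPFA.prodW (M.P false) (M.P true) w *ᵥ M.final) := by
  have : M.P = Helper84.GPFA.pm (M.P false) (M.P true) := by
    funext b
    cases b <;> simp [Helper84.GPFA.pm]
  rw [GPFA.rho, Helper84.GPFA.prodW, ← this]

theorem rho_one (M : GPFA 1) (w : List Bool) :
    M.rho w = M.init 0 * ((w.map fun b => M.P b 0 0).prod * M.final 0) := by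
  have h : ∀ w : List Bool, (w.map M.P).prod 0 0 = (w.map fun b => M.P b 0 0).prod := by
    intro w
    induction w with
    | nil => simp
    | cons b w ih => simp [Matrix.mul_apply, ih]
  simp [GPFA.rho, dotProduct, Matrix.mulVec, h]

/-- There is a binary word `x` (of length 13126) such that for every word `y = u x v` containing
`x` as a factor (in particular for `y = x`) every two-state GPFA gives some other word of the same
length at least the value of `y`, and the GPFA complexity of `y` is greater than two. -/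
theorem result : ∃ x : List Bool, x.length = 13126 ∧ ∀ u v : List Bool,
    (∀ M : GPFA 2, ∃ z : List Bool, z.length = (u ++ x ++ v).length ∧ z ≠ u ++ x ++ v ∧
      M.rho (u ++ x ++ v) ≤ M.rho z) ∧
    2 < complexity (u ++ x ++ v) := by
  refine ⟨Helper84.GPFA.hardWord, by decide +kernel, fun u v => ?_⟩
  have key : ∀ M : GPFA 2, ∃ z : List Bool, z.length = (u ++ Helper84.GPFA.hardWord ++ v).length ∧
      z ≠ u ++ Helper84.GPFA.hardWord ++ v ∧
      M.rho (u ++ Helper84.GPFA.hardWord ++ v) ≤ M.rho z := by
    intro M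
    obtain ⟨z, hp, hne, hle⟩ :=
      Helper84.GPFA.hard (M.P false) (M.P true) M.init M.final u v
    refine ⟨u ++ z ++ v, by simp [hp.length_eq], ?_, ?_⟩
    · intro h
      exact hne (List.append_cancel_left (List.append_cancel_right h))
    · rw [rho_two, rho_two]
      exact hle
  refine ⟨key, ?_⟩
  have h3 : (3 : ℕ∞) ≤ complexity (u ++ Helper84.GPFA.hardWord ++ v) := by
    refine le_iInf₂ fun k hk => ?_
    obtain ⟨hk1, M, hM⟩ := hk
    by_contra hlt
    have hlt' : k < 3 := by
      have : (k : ℕ∞) < (3 : ℕ) := by simpa using hlt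
      exact_mod_cast this
    have hk12 : k = 1 ∨ k = 2 := by omega
    rcases hk12 with rfl | rfl
    · obtain ⟨z, hp, hne, -⟩ := Helper84.GPFA.hard 0 0 0 0 u v
      have hne' : u ++ z ++ v ≠ u ++ Helper84.GPFA.hardWord ++ v := fun h =>
        hne (List.append_cancel_left (List.append_cancel_right h))
      have h1 := lt_of_gap_pos hM (z := u ++ z ++ v) (by simp [hp.length_eq]) hne'
      have hp' : (u ++ z ++ v).Perm (u ++ Helper84.GPFA.hardWord ++ v) :=
        (hp.append_left _).append_right _
      rw [rho_one, rho_one, (hp'.map fun b => M.P b 0 0).prod_eq] at h1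
      exact lt_irrefl _ h1
    · obtain ⟨z, hl, hne, hle⟩ := key M
      exact absurd (lt_of_gap_pos hM hl hne) (not_lt.mpr hle)
  exact lt_of_lt_of_le (by norm_num) h3

end Pool.Agent.Results.MP_7880bd_lc.TwoStatesNotEnough
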